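import Pool.Agent.V5helper60.GM.Stm3

/-!
# Project GM, job PM: `|X| ≤ |X⁺| ^ 2`
-/

set_option autoImplicit false

namespace Pool.Agent.V5helper23.GM

variable {V : Type} [CommGroup V]

/-- the vectors fixed by `c` -/
def Pl (c : V →* V) : Subgroup V where
  carrier := {v | c v = v}
  mul_mem' := fun {v w} (hv : c v = v) (hw : c w = w) => show c (v * w) = v * w by
    rw [map_mul, hv, hw]
  one_mem' := map_one c
  inv_mem' := fun {v} (hv : c v = v) => show c v⁻¹ = v⁻¹ by rw [map_inv, hv]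

/-- the vectors inverted by `c` -/
def Mi (c : V →* V) : Subgroup V where
  carrier := {v | c v = v⁻¹}
  mul_mem' := fun {v w} (hv : c v = v⁻¹) (hw : c w = w⁻¹) => show c (v * w) = (v * w)⁻¹ by
    rw [map_mul, hv, hw, mul_inv]
  one_mem' := show c 1 = 1⁻¹ by rw [map_one, inv_one]
  inv_mem' := fun {v} (hv : c v = v⁻¹) => show c v⁻¹ = v⁻¹⁻¹ by rw [map_inv, hv]

lemma mem_Pl {c : V →* V} {v : V} : v ∈ Pl c ↔ c v = v := Iff.rfl
lemma mem_Mi {c : V →* V} {v : V} : v ∈ Mi c ↔ c v = v⁻¹ := Iff.rfl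

/-- kernel and image -/
lemma card_split (a : V →* V) (Z : Subgroup V) :
    Nat.card Z = Nat.card ↥(Z ⊓ a.ker) * Nat.card ↥(Z.map a) := by
  have h1 := (a.comp Z.subtype).ker.card_mul_index
  have h2 : (a.comp Z.subtype).ker.index = Nat.card (a.comp Z.subtype).range :=
    Subgroup.index_ker _
  have h3 : (a.comp Z.subtype).range = Z.map a := by
    rw [MonoidHom.range_comp, Subgroup.range_subtype]
  have h4 : Nat.card (a.comp Z.subtype).ker = Nat.card ↥(Z ⊓ a.ker) :=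
    Nat.card_congr
      { toFun := fun x => ⟨x.1.1, x.1.2, x.2⟩
        invFun := fun x => ⟨⟨x.1, x.2.1⟩, x.2.2⟩
        left_inv := fun x => rfl
        right_inv := fun x => rfl }
  rw [← h1, h2, h3, h4]

section key
set_option linter.unusedSectionVars false
variable [Finite V] {m : ℕ} (hexp : ∀ v : V, v ^ (2 * m + 1) = 1) {c : V →* V}
  (hcc : ∀ v, c (c v) = v)

include hexp in
lemma half (v : V) : (v * v) ^ (m + 1) = v := by
  have h1 : (v * v) ^ (m + 1) = v ^ (2 * m + 1) * v := by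
    rw [← pow_two, ← pow_mul, ← pow_succ]
    congr 1
  rw [h1, hexp, one_mul]

include hexp hcc in
lemma map_Pl {a : V →* V} (hac : ∀ v, a (c v) = (c (a v))⁻¹) (X : Subgroup V)
    (hX : ∀ v ∈ X, c v ∈ X) : (X ⊓ Pl c).map a = X.map a ⊓ Mi c := by
  ext w
  rw [Subgroup.mem_map, Subgroup.mem_inf, Subgroup.mem_map]
  constructor
  · rintro ⟨v, ⟨h1, h2⟩, rfl⟩
    refine ⟨⟨v, h1, rfl⟩, ?_⟩
    have h2' : c v = v := h2
    have h3 := hac v
    rw [h2'] at h3
    exact (inv_eq_iff_eq_inv.2 h3).symm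
  · rintro ⟨⟨v, h1, rfl⟩, h2⟩
    rw [mem_Mi] at h2
    refine ⟨(v * c v) ^ (m + 1), ⟨X.pow_mem (X.mul_mem h1 (hX v h1)) _, ?_⟩, ?_⟩
    · change c ((v * c v) ^ (m + 1)) = (v * c v) ^ (m + 1)
      rw [map_pow, map_mul, hcc, mul_comm]
    · rw [map_pow, map_mul, hac, h2, inv_inv]
      exact half hexp _

include hexp hcc in
lemma map_Mi {a : V →* V} (hac : ∀ v, a (c v) = (c (a v))⁻¹) (X : Subgroup V)
    (hX : ∀ v ∈ X, c v ∈ X) : (X ⊓ Mi c).map a = X.map a ⊓ Pl c := by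
  ext w
  rw [Subgroup.mem_map, Subgroup.mem_inf, Subgroup.mem_map]
  constructor
  · rintro ⟨v, ⟨h1, h2⟩, rfl⟩
    refine ⟨⟨v, h1, rfl⟩, ?_⟩
    have h2' : c v = v⁻¹ := h2
    have h3 := hac v
    rw [h2', map_inv, inv_inj] at h3
    exact h3.symm
  · rintro ⟨⟨v, h1, rfl⟩, h2⟩
    rw [mem_Pl] at h2
    refine ⟨(v * (c v)⁻¹) ^ (m + 1), ⟨X.pow_mem (X.mul_mem h1 (X.inv_mem (hX v h1))) _, ?_⟩, ?_⟩
    · change c ((v * (c v)⁻¹) ^ (m + 1)) = ((v * (c v)⁻¹) ^ (m + 1))⁻¹
      rw [map_pow, map_mul, map_inv, hcc, ← inv_pow, mul_inv, inv_inv, mul_comm]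
    · rw [map_pow, map_mul, map_inv, hac, h2, inv_inv]
      exact half hexp _

include hexp hcc in
/-- the two eigenspaces have the same order -/
lemma key {A : Set (V →* V)} (hcomm : ∀ h ∈ A, ∀ h' ∈ A, ∀ v, h (h' v) = h' (h v))
    (hcA : ∀ h ∈ A, ∃ h' ∈ A, ∀ v, h' v = c (h (c v))) :
    ∀ (N : ℕ) (X : Subgroup V), Nat.card X ≤ N → (∀ h ∈ A, ∀ v ∈ X, h v ∈ X) →
      (∀ v ∈ X, c v ∈ X) → (∀ v ∈ X, (∀ h ∈ A, h v = c (h (c v))) → v = 1) →
      Nat.card ↥(X ⊓ Pl c) = Nat.card ↥(X ⊓ Mi c) := by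
  intro N
  induction N with
  | zero =>
    intro X h0
    have : 0 < Nat.card X := Nat.card_pos
    omega
  | succ N ih =>
    intro X hN hA hc hX
    by_cases hbot : X = ⊥
    · rw [hbot, bot_inf_eq, bot_inf_eq]
    · obtain ⟨⟨v, hv⟩, hv1⟩ := (Subgroup.ne_bot_iff_exists_ne_one).1 hbot
      have hv1' : v ≠ 1 := fun h => hv1 (Subtype.ext h)
      have h1 : ¬ ∀ h ∈ A, h v = c (h (c v)) := fun h => hv1' (hX v hv h)
      push Not at h1
      obtain ⟨h, hh, hne⟩ := h1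
      obtain ⟨h', hh', hh'2⟩ := hcA h hh
      obtain ⟨a, ha⟩ : ∃ a : V →* V, a = h * h'⁻¹ := ⟨_, rfl⟩
      have ha' : ∀ v, a v = h v * (c (h (c v)))⁻¹ := by
        intro v
        rw [ha, MonoidHom.mul_apply, MonoidHom.inv_apply, hh'2]
      have hac : ∀ v, a (c v) = (c (a v))⁻¹ := by
        intro v
        rw [ha', ha', hcc, map_mul, map_inv, hcc, mul_inv, inv_inv, mul_comm]
      have hca : ∀ v, c (a v) = (a (c v))⁻¹ := by
        intro v
        rw [hac, inv_inv]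
      have haA : ∀ g ∈ A, ∀ v, a (g v) = g (a v) := by
        intro g hg v
        rw [ha, MonoidHom.mul_apply, MonoidHom.inv_apply, MonoidHom.mul_apply,
          MonoidHom.inv_apply, map_mul, map_inv, hcomm h hh g hg, hcomm h' hh' g hg]
      have haX : ∀ v ∈ X, a v ∈ X := by
        intro v hv
        rw [ha']
        exact X.mul_mem (hA h hh v hv) (X.inv_mem (hc _ (hA h hh _ (hc v hv))))
      -- the kernel
      have hY : Nat.card ↥(X ⊓ a.ker) < Nat.card X := by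
        refine lt_of_le_of_ne (Subgroup.card_le_of_le inf_le_left) fun he => ?_
        have h2 : X ⊓ a.ker = X := Subgroup.eq_of_le_of_card_ge inf_le_left he.ge
        have h3 : v ∈ X ⊓ a.ker := by rw [h2]; exact hv
        have h4 : a v = 1 := h3.2
        rw [ha', mul_inv_eq_one] at h4
        exact hne h4
      have e1 := ih (X ⊓ a.ker) (by omega)
        (fun g hg v hv => ⟨hA g hg v hv.1, by
          change a (g v) = 1
          rw [haA g hg, show a v = 1 from hv.2, map_one]⟩)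
        (fun v hv => ⟨hc v hv.1, by
          change a (c v) = 1
          rw [hac, show a v = 1 from hv.2, map_one, inv_one]⟩)
        (fun v hv hv2 => hX v hv.1 hv2)
      have c1 := card_split a (X ⊓ Pl c)
      have c2 := card_split a (X ⊓ Mi c)
      rw [map_Pl hexp hcc hac X hc, inf_right_comm] at c1
      rw [map_Mi hexp hcc hac X hc, inf_right_comm] at c2
      have hle : X.map a ≤ X := by
        rintro w ⟨v, hv, rfl⟩
        exact haX v hv
      by_cases heq : X.map a = X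
      · rw [heq] at c1 c2
        rw [e1] at c1
        have hpos : 0 < Nat.card ↥(X ⊓ Pl c) := Nat.card_pos
        rw [c2] at c1
        have h5 : Nat.card ↥(X ⊓ a.ker ⊓ Mi c) = 1 := by
          have h6 : 0 < Nat.card ↥(X ⊓ a.ker ⊓ Mi c) := Nat.card_pos
          by_contra h7
          have h8 : 2 ≤ Nat.card ↥(X ⊓ a.ker ⊓ Mi c) := by omega
          have h9 : 2 * (2 * Nat.card ↥(X ⊓ Pl c)) ≤ Nat.card ↥(X ⊓ a.ker ⊓ Mi c) *
              (Nat.card ↥(X ⊓ a.ker ⊓ Mi c) * Nat.card ↥(X ⊓ Pl c)) :=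
            Nat.mul_le_mul h8 (Nat.mul_le_mul h8 le_rfl)
          omega
        rw [h5, one_mul] at c2
        exact c2.symm
      · have hlt : Nat.card ↥(X.map a) < Nat.card X := by
          refine lt_of_le_of_ne (Subgroup.card_le_of_le hle) fun he => ?_
          exact heq (Subgroup.eq_of_le_of_card_ge hle he.ge)
        have e2 := ih (X.map a) (by omega)
          (by
            rintro g hg w ⟨v, hv, rfl⟩
            exact ⟨g v, hA g hg v hv, haA g hg v⟩)
          (by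
            rintro w ⟨v, hv, rfl⟩
            refine ⟨(c v)⁻¹, X.inv_mem (hc v hv), ?_⟩
            rw [map_inv, hca])
          (fun w hw hw2 => hX w (hle hw) hw2)
        rw [c1, c2, e1, e2]

end key

/-- PM -/
theorem t_PM : Pool.Agent.V5helper60.GM.S_PM := by
  intro p hp hp2 V _ _ hexp HH c hcc hcomm hcH X hX hc hfix P hP
  obtain ⟨m, hm⟩ : ∃ m, p = 2 * m + 1 := hp.out.odd_of_ne_two hp2
  have hexp' : ∀ v : V, v ^ (2 * m + 1) = 1 := by
    intro v
    rw [← hm]
    exact hexp v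
  have hinv : c⁻¹ = c := inv_eq_of_mul_eq_one_right hcc
  have hcc' : ∀ v, c (c v) = v := fun v => by
    have := DFunLike.congr_fun hcc v
    rwa [MulAut.mul_apply, MulAut.one_apply] at this
  have hch : ∀ (h : MulAut V) (v : V), (c * h * c⁻¹) v = c (h (c v)) := by
    intro h v
    rw [hinv, MulAut.mul_apply, MulAut.mul_apply]
  have hk := key hexp' (c := c.toMonoidHom) hcc' (A := {f | ∃ h ∈ HH, f = h.toMonoidHom})
    (by
      rintro _ ⟨h, hh, rfl⟩ _ ⟨h', hh', rfl⟩ v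
      have := DFunLike.congr_fun (hcomm h hh h' hh') v
      rwa [MulAut.mul_apply, MulAut.mul_apply] at this)
    (by
      rintro _ ⟨h, hh, rfl⟩
      exact ⟨(c * h * c⁻¹).toMonoidHom, ⟨_, hcH h hh, rfl⟩, fun v => hch h v⟩)
    (Nat.card X) X le_rfl
    (by
      rintro _ ⟨h, hh, rfl⟩ v hv
      exact hX h hh v hv)
    hc
    (by
      intro v hv h1
      refine hfix v hv fun h hh => ?_
      rw [hch]
      exact h1 _ ⟨h, hh, rfl⟩)
  have hPe : P = X ⊓ Pl c.toMonoidHom := by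
    ext v
    exact hP v
  have hinj : Nat.card X ≤ Nat.card (↥(X ⊓ Pl c.toMonoidHom) × ↥(X ⊓ Mi c.toMonoidHom)) := by
    let F : X → ↥(X ⊓ Pl c.toMonoidHom) × ↥(X ⊓ Mi c.toMonoidHom) := fun v =>
      (⟨v.1 * c v.1, X.mul_mem v.2 (hc _ v.2), by
        change c (v.1 * c v.1) = v.1 * c v.1
        rw [map_mul, hcc', mul_comm]⟩,
       ⟨v.1 * (c v.1)⁻¹, X.mul_mem v.2 (X.inv_mem (hc _ v.2)), by
        change c (v.1 * (c v.1)⁻¹) = (v.1 * (c v.1)⁻¹)⁻¹
        rw [map_mul, map_inv, hcc', mul_inv, inv_inv, mul_comm]⟩)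
    refine Nat.card_le_card_of_injective F fun v w hvw => ?_
    have h1 : v.1 * c v.1 = w.1 * c w.1 := congrArg (fun z => z.1.1) hvw
    have h2 : v.1 * (c v.1)⁻¹ = w.1 * (c w.1)⁻¹ := congrArg (fun z => z.2.1) hvw
    have h3 : v.1 * v.1 = w.1 * w.1 := by
      have e1 : v.1 * v.1 = (v.1 * c v.1) * (v.1 * (c v.1)⁻¹) := by
        rw [mul_mul_mul_comm, mul_inv_cancel, mul_one]
      have e2 : w.1 * w.1 = (w.1 * c w.1) * (w.1 * (c w.1)⁻¹) := by
        rw [mul_mul_mul_comm, mul_inv_cancel, mul_one]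
      rw [e1, e2, h1, h2]
    apply Subtype.ext
    rw [← half hexp' v.1, ← half hexp' w.1, h3]
  rw [Nat.card_prod, ← hk, ← hPe] at hinj
  rw [pow_two]
  exact hinj

end Pool.Agent.V5helper23.GM
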